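import Mathlib
import Pool.Agent.H2.EL.ResC

set_option autoImplicit false

open Filter Topology

namespace Pool.Agent.Results.MP_0c9a68_nt.CofactorCriterion

/-- All self-correlations of `f` vanish: for pairwise non-proportional affine forms `a i * n + b i` the
averages of the products of the values there of `f` or its conjugate tend to zero. -/
def SelfUncorrelated (f : ArithmeticFunction ℂ) : Prop :=
  ∀ (r : ℕ) (a b : Fin r → ℕ) (u : Fin r → Bool), 0 < r → (∀ i, 0 < a i) →
    (∀ i j, i ≠ j → a i * b j ≠ a j * b i) →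
    Tendsto (fun N : ℕ => (1 / (N : ℂ)) * ∑ n ∈ Finset.Icc 1 N,
      ∏ i, (if u i then f (a i * n + b i) else (starRingEnd ℂ) (f (a i * n + b i)))) atTop (𝓝 0)

/-- `f` is uncorrelated with all products of multiplicative functions: the averages of
`f (a 0 * n + b 0)` times arbitrary 1-bounded multiplicative functions at affine forms not proportional
to `a 0 * n + b 0` tend to zero, uniformly in these functions. -/
def UncorrelatedWithAll (f : ArithmeticFunction ℂ) : Prop :=
  ∀ (k : ℕ) (a b : Fin (k + 1) → ℕ), (∀ i, 0 < a i) → (∀ i, i ≠ 0 → a i * b 0 ≠ a 0 * b i) →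
    ∀ ε : ℝ, 0 < ε → ∃ N₀ : ℕ, ∀ N : ℕ, N₀ ≤ N → ∀ g : Fin k → ArithmeticFunction ℂ,
      (∀ i, (g i).IsMultiplicative) → (∀ i n, ‖g i n‖ ≤ 1) →
      ‖(1 / (N : ℂ)) * ∑ n ∈ Finset.Icc 1 N, f (a 0 * n + b 0) *
        ∏ i : Fin k, g i (a i.succ * n + b i.succ)‖ ≤ ε

/-- Condition (N). -/
def CondN (g : ArithmeticFunction ℂ) : Prop :=
  ∀ (q : ℕ) (χ : DirichletCharacter ℂ q), 0 < q →
    ∀ M : ℝ, ∃ X₀ : ℝ, ∀ X : ℝ, X₀ ≤ X → ∀ t : ℝ, |t| ≤ X →
      M ≤ ∑ p ∈ Finset.filter Nat.Prime (Finset.Iic ⌊X⌋₊),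
        (1 - (g p * starRingEnd ℂ (χ (p : ZMod q) * (p : ℂ) ^ (Complex.I * (t : ℂ)))).re) / (p : ℝ)

/-- Q1: the unweighted Elliott conjecture. -/
def Elliott : Prop :=
  ∀ (k : ℕ) (g : Fin k → ArithmeticFunction ℂ), (∀ i, (g i).IsMultiplicative) →
    (∀ i n, ‖g i n‖ ≤ 1) → (∃ j : Fin k, CondN (g j)) →
    ∀ h : Fin k → ℤ, Function.Injective h →
      Tendsto (fun N : ℕ => (1 / (N : ℂ)) * ∑ n ∈ Finset.Icc 1 N, ∏ i, g i ((n : ℤ) + h i).toNat)
        atTop (𝓝 0)

/-- The reduction of Elliott's conjecture to self-correlations of a single function: a 1-bounded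
multiplicative function is uncorrelated with all products of arbitrary multiplicative functions if and
only if its self-correlations along pairwise non-proportional affine forms vanish, and Q1 holds if and
only if they vanish for every function with condition (N). -/
theorem result :
    (∀ f : ArithmeticFunction ℂ, f.IsMultiplicative → (∀ n, ‖f n‖ ≤ 1) →
      (SelfUncorrelated f ↔ UncorrelatedWithAll f)) ∧
    (Elliott ↔ ∀ f : ArithmeticFunction ℂ, f.IsMultiplicative → (∀ n, ‖f n‖ ≤ 1) → CondN f →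
      SelfUncorrelated f) :=
  ⟨fun f hm hb => ⟨Pool.H2.EL.aff1 f hb, Pool.H2.EL.aff2 f hm hb⟩, Pool.H2.EL.resC1⟩

end Pool.Agent.Results.MP_0c9a68_nt.CofactorCriterion
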