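import Mathlib
import Pool.Agent.H16.SW.ResA
import Pool.Agent.H16.SW.FinB

set_option autoImplicit false

namespace Pool.Agent.Results.MP_0c9a68_nt.SharpWeakElliott

/-- The average over `n ≤ N` of `∏ g_j(n + h_j)` (an arithmetic function is `0` at `0`, and `toNat` sends the negative
integers to `0`). -/
noncomputable def mean {K : ℕ} (h : Fin K → ℤ) (g : Fin K → ArithmeticFunction ℂ) (N : ℕ) : ℂ :=
  (1 / (N : ℂ)) * ∑ n ∈ Finset.Icc 1 N, ∏ j, g j ((n : ℤ) + h j).toNat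

/-- Condition (N) of the problem. -/
def CondN (g : ℕ → ℂ) : Prop :=
  ∀ (r : ℕ) (χ : DirichletCharacter ℂ r), 0 < r →
    ∀ M : ℝ, ∃ X₀ : ℝ, ∀ X : ℝ, X₀ ≤ X → ∀ t : ℝ, |t| ≤ X →
      M ≤ ∑ p ∈ Finset.filter Nat.Prime (Finset.Iic ⌊X⌋₊),
        (1 - (g p * starRingEnd ℂ (χ (p : ZMod r) * (p : ℂ) ^ (Complex.I * (t : ℂ)))).re) / (p : ℝ)

/-- Condition (N) at the single scale `N` with the constant `A`: the square of the distance of `g` and
`χ(n) n^(it)` up to `N` is at least `A` for all `χ` of modulus at most `A` and all `|t| ≤ N`. -/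
def CondNAt (A N : ℕ) (g : ℕ → ℂ) : Prop :=
  ∀ (r : ℕ) (χ : DirichletCharacter ℂ r), 0 < r → r ≤ A → ∀ t : ℝ, |t| ≤ N →
    (A : ℝ) ≤ ∑ p ∈ (Finset.Icc 1 N).filter Nat.Prime,
      (1 - (g p * starRingEnd ℂ (χ (p : ZMod r) * (p : ℂ) ^ (Complex.I * (t : ℂ)))).re) / (p : ℝ)

/-- All values are in `[0, 1] μ_q` (`q = 2`: all real functions). -/
def FinOrd (q : ℕ) (g : ArithmeticFunction ℂ) : Prop := ∀ n, ∃ r : ℝ, 0 ≤ r ∧ g n ^ q = r

/-- Integral powers, the negative ones being powers of the complex conjugate. -/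
noncomputable def power (z : ℂ) (c : ℤ) : ℂ := if 0 ≤ c then z ^ c.toNat else (starRingEnd ℂ z) ^ (-c).toNat

/-- The function `∏ g_j^(c_j)`. -/
noncomputable def prodPow {K : ℕ} (c : Fin K → ℤ) (g : Fin K → ArithmeticFunction ℂ) (n : ℕ) : ℂ :=
  ∏ j, power (g j n) (c j)

/-- The uniform weak Elliott conjecture for the shifts `h` and the exponents `c`: if `∏ g_j^(c_j)` satisfies condition
(N) at the scale `N`, then the average of `∏ g_j(n + h_j)` up to `N` is at most `1 - δ` in absolute value, for all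
large `N` and all 1-bounded multiplicative `g_j` (which may depend on `N`), those with `j ∈ I` having order `q`. -/
def WeakUniform {K : ℕ} (h : Fin K → ℤ) (q : ℕ) (I : Finset (Fin K)) (c : Fin K → ℤ) : Prop :=
  ∃ δ : ℝ, 0 < δ ∧ ∃ A : ℕ, ∀ N : ℕ, A ≤ N → ∀ g : Fin K → ArithmeticFunction ℂ,
    (∀ j, (g j).IsMultiplicative) → (∀ j n, ‖g j n‖ ≤ 1) → (∀ j ∈ I, FinOrd q (g j)) →
      CondNAt A N (prodPow c g) → ‖mean h g N‖ ≤ 1 - δ

/-- The uniform weak Elliott conjecture holds for the exponents `c` if and only if `c_j` is an affine function of the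
shift `h_j` outside `I`. In this case it holds also for all large `N` if `∏ g_j^(c_j)` is a fixed function with
condition (N). -/
theorem result {K : ℕ} (hK : 2 ≤ K) (h : Fin K → ℤ) (hh : Function.Injective h) (q : ℕ) (hq : 1 ≤ q)
    (I : Finset (Fin K)) (c : Fin K → ℤ) :
    (WeakUniform h q I c ↔ ∃ α β : ℚ, ∀ j, j ∉ I → (c j : ℚ) = α + β * h j) ∧
    (WeakUniform h q I c → ∃ δ : ℝ, 0 < δ ∧ ∀ F : ℕ → ℂ, CondN F → ∃ N₀ : ℕ, ∀ N : ℕ, N₀ ≤ N →
      ∀ g : Fin K → ArithmeticFunction ℂ, (∀ j, (g j).IsMultiplicative) → (∀ j n, ‖g j n‖ ≤ 1) →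
        (∀ j ∈ I, FinOrd q (g j)) → (∀ p, p.Prime → prodPow c g p = F p) → ‖mean h g N‖ ≤ 1 - δ) := by
  refine ⟨⟨?_, ?_⟩, ?_⟩
  · rintro ⟨δ, hδ, A, H⟩
    by_contra hc
    obtain ⟨N, hAN, x, hxI, hNA, hS⟩ := Pool.H16.SW.finB h hh I c hc δ hδ A
    obtain ⟨g, hg⟩ : ∃ g : Fin K → ArithmeticFunction ℂ, ∀ j n, g j n = Pool.H16.SW.gx (x j) n :=
      ⟨fun j => ⟨Pool.H16.SW.gx (x j), by unfold Pool.H16.SW.gx; simp⟩, fun j n => rfl⟩
    have hob : ∀ j, Pool.H2.MR.OB (Pool.H16.SW.gx (x j)) := fun j => Pool.H16.SW.gx_ob (x j)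
    have h1 := H N hAN g (fun j => ⟨by rw [hg]; exact (hob j).one, fun {m n} hmn => by
      rw [hg, hg, hg]; exact (hob j).mul m n hmn⟩) (fun j n => by rw [hg]; exact (hob j).bd n) (by
      intro j hj n
      rw [hg, hxI j hj]
      exact Pool.H16.SW.gx_FO q hq n) (by
      have e1 : prodPow c g = Pool.H16.SW.FF c (fun j => Pool.H16.SW.gx (x j)) := by
        funext n
        unfold prodPow Pool.H16.SW.FF
        exact Finset.prod_congr rfl fun j _ => by rw [hg]; rfl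
      rw [e1]
      exact hNA)
    have h2 : mean h g N = (1 / (N : ℂ)) * ∑ n ∈ Finset.Icc 1 N, ∏ j, Pool.H16.SW.gx (x j) ((n : ℤ) + h j).toNat := by
      unfold mean
      congr 1
      refine Finset.sum_congr rfl fun n _ => Finset.prod_congr rfl fun j _ => ?_
      rw [hg]
    rw [h2, norm_mul, norm_div, norm_one, Complex.norm_natCast] at h1
    rcases Nat.eq_zero_or_pos N with h0 | h0
    · rw [h0] at hS
      simp at hS
    · have h4 : (0 : ℝ) < N := by exact_mod_cast h0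
      rw [one_div, inv_mul_le_iff₀ h4] at h1
      linarith
  · rintro ⟨α, β, hc⟩
    obtain ⟨δ, A, hδ, H⟩ := Pool.H16.SW.resA (by omega) h hh q hq I c α β hc
    refine ⟨δ, hδ, A, fun N hN g hg hg1 hI hNA => ?_⟩
    exact H N hN (fun j n => g j n) (fun j => ⟨(hg j).map_one, fun m n hmn => (hg j).map_mul_of_coprime hmn, hg1 j⟩)
      (fun j hj n => hI j hj n) hNA
  · rintro ⟨δ, hδ, A, H⟩
    refine ⟨δ, hδ, fun F hF => ?_⟩
    obtain ⟨N₁, hN₁⟩ := Pool.H2.WE.NA_of_cond F hF A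
    refine ⟨max A N₁, fun N hN g hg hg1 hI hp => ?_⟩
    refine H N ((le_max_left _ _).trans hN) g hg hg1 hI ?_
    intro r χ hr hrA t ht
    refine (hN₁ N ((le_max_right _ _).trans hN) r χ hr hrA t ht).trans (le_of_eq ?_)
    refine Finset.sum_congr rfl fun p hpp => ?_
    rw [hp p (Finset.mem_filter.1 hpp).2]

end Pool.Agent.Results.MP_0c9a68_nt.SharpWeakElliott
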